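import Pool.Agent.Lib.MP_50bb2e_nt.MT.Iface

/-! CNT: number of ideals -/

open NumberField IsDedekindDomain Filter Topology

open scoped nonZeroDivisors

namespace Pool.Agent.Lib.MP_50bb2e_nt.MT.H17

open Pool.Agent.Lib.MP_50bb2e_nt.MT

namespace CntM

variable (F : Type) [Field F] [NumberField F]

lemma finite_le (X : ℝ) : (idealsLE F X).Finite := by
  refine (Ideal.finite_setOfPred_absNorm_le (S := 𝓞 F) ⌊X⌋₊).subset ?_
  intro I hI
  exact Nat.le_floor hI.2

lemma absNorm_pos {I : Ideal (𝓞 F)} (hI : I ≠ ⊥) : 1 ≤ Ideal.absNorm I := by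
  refine Nat.one_le_iff_ne_zero.2 fun h => hI ?_
  exact Ideal.absNorm_eq_zero_iff.1 h

lemma ncard_eq (X : ℝ) : (idealsLE F X).ncard =
    Nat.card {I : (Ideal (𝓞 F))⁰ // (Ideal.absNorm (I : Ideal (𝓞 F)) : ℝ) ≤ X} := by
  rw [← Nat.card_coe_set_eq]
  refine Nat.card_congr
    { toFun := fun y => ⟨⟨y.1, mem_nonZeroDivisors_iff_ne_zero.2 y.2.1⟩, y.2.2⟩
      invFun := fun x => ⟨x.1.1, nonZeroDivisors.ne_zero x.1.2, x.2⟩
      left_inv := fun _ => rfl
      right_inv := fun _ => rfl }

lemma tendsto_count : Tendsto (fun X : ℝ => ((idealsLE F X).ncard : ℝ) / X) atTop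
    (𝓝 (dedekindZeta_residue F)) := by
  have h := Ideal.tendsto_norm_le_div_atTop₀ F
  rw [← dedekindZeta_residue_def] at h
  refine h.congr fun X => ?_
  rw [ncard_eq]

lemma mono {X Y : ℝ} (h : X ≤ Y) : (idealsLE F X).ncard ≤ (idealsLE F Y).ncard :=
  Set.ncard_le_ncard (fun _ hI => ⟨hI.1, hI.2.trans h⟩) (finite_le F Y)

lemma zero_of_lt {X : ℝ} (h : X < 1) : (idealsLE F X).ncard = 0 := by
  have h1 : idealsLE F X = ∅ := by
    refine Set.eq_empty_iff_forall_notMem.2 fun I hI => ?_
    have h2 : (1 : ℝ) ≤ Ideal.absNorm I := by exact_mod_cast absNorm_pos F hI.1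
    exact absurd (h2.trans hI.2) (not_le.2 h)
  rw [h1, Set.ncard_empty]

end CntM

open CntM in
theorem cnt : CntS := by
  intro F _ _
  have hpos := dedekindZeta_residue_pos F
  have hlim := tendsto_count F
  refine ⟨finite_le F, ?_, ?_⟩
  · obtain ⟨X₀, hX₀⟩ := eventually_atTop.1 (hlim.eventually
      (gt_mem_nhds (show dedekindZeta_residue F < dedekindZeta_residue F + 1 by linarith)))
    set X₁ : ℝ := max X₀ 1 with hX₁
    refine ⟨dedekindZeta_residue F + 1 + (idealsLE F X₁).ncard, by positivity,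
      fun X hX => ?_⟩
    rcases lt_or_ge X 1 with h1 | h1
    · rw [zero_of_lt F h1]
      push_cast
      positivity
    · rcases le_total X X₁ with h2 | h2
      · have h3 : ((idealsLE F X).ncard : ℝ) ≤ (idealsLE F X₁).ncard := by
          exact_mod_cast mono F h2
        have h4 : (0 : ℝ) ≤ (idealsLE F X₁).ncard := by positivity
        nlinarith
      · have h3 := hX₀ X ((le_max_left _ _).trans h2)
        rw [div_lt_iff₀ (by linarith)] at h3
        have h4 : (0 : ℝ) ≤ (idealsLE F X₁).ncard := by positivity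
        nlinarith
  · refine ⟨dedekindZeta_residue F / 2, by positivity, ?_⟩
    filter_upwards [hlim.eventually
      (lt_mem_nhds (show dedekindZeta_residue F / 2 < dedekindZeta_residue F by linarith)),
      eventually_gt_atTop 0] with X h1 h2
    rw [lt_div_iff₀ h2] at h1
    exact h1.le

end Pool.Agent.Lib.MP_50bb2e_nt.MT.H17
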