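import Pool.Agent.Lib.MP_50bb2e_nt.MT.Iface

/-! ORD: basic facts on the parity of the orders -/

open NumberField IsDedekindDomain Filter Topology

namespace Pool.Agent.Lib.MP_50bb2e_nt.MT.H17

open Pool.Agent.Lib.MP_50bb2e_nt.MT

namespace OrdM

variable {F : Type} [Field F] [NumberField F]

/-- the order of a unit -/
noncomputable def ordv (v : Pr F) (d : Fˣ) : ℤ := WithZero.log (v.valuation F (d : F))

lemma val_ne (v : Pr F) (d : Fˣ) : v.valuation F (d : F) ≠ 0 :=
  (Valuation.ne_zero_iff _).2 d.ne_zero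

lemma ordv_mul (v : Pr F) (d e : Fˣ) : ordv v (d * e) = ordv v d + ordv v e := by
  unfold ordv
  rw [Units.val_mul, map_mul, WithZero.log_mul (val_ne v d) (val_ne v e)]

lemma odd_iff_of_cls {v : Pr F} {d e : Fˣ} (h : cls d = cls e) :
    Odd (ordv v d) ↔ Odd (ordv v e) := by
  obtain ⟨s, hs⟩ := QuotientGroup.eq.1 h
  have h1 : e = d * s ^ 2 := by
    have h2 : s ^ 2 = d⁻¹ * e := hs
    rw [h2, mul_inv_cancel_left]
  rw [h1, pow_two, ordv_mul, ordv_mul, Int.odd_add]
  constructor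
  · intro h2
    exact ⟨fun _ => ⟨ordv v s, by ring⟩, fun _ => h2⟩
  · intro h2
    exact h2.2 ⟨ordv v s, by ring⟩

lemma oddAt_cls (v : Pr F) (d : Fˣ) : OddAt v (cls d) ↔ Odd (ordv v d) := by
  constructor
  · rintro ⟨e, he, ho⟩
    exact (odd_iff_of_cls he).1 ho
  · intro h
    exact ⟨d, rfl, h⟩

omit [NumberField F] in
lemma exists_rep (q : Quad F) : ∃ d : Fˣ, cls d = q := QuotientGroup.mk_surjective q

lemma finite_odd (q : Quad F) : {v : Pr F | OddAt v q}.Finite := by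
  obtain ⟨d, rfl⟩ := exists_rep q
  refine ((HeightOneSpectrum.Support.finite (𝓞 F) (d : F)).union
    (HeightOneSpectrum.Support.finite (𝓞 F) ((d⁻¹ : Fˣ) : F))).subset ?_
  intro v hv
  have h1 : Odd (ordv v d) := (oddAt_cls v d).1 hv
  by_contra hcon
  rw [Set.mem_union, not_or] at hcon
  have h2 : v.valuation F (d : F) ≤ 1 := not_lt.1 hcon.1
  have h3 : v.valuation F ((d⁻¹ : Fˣ) : F) ≤ 1 := not_lt.1 hcon.2
  have h4 : v.valuation F (d : F) = 1 := by
    refine le_antisymm h2 ?_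
    rw [Units.val_inv_eq_inv_val, map_inv₀] at h3
    exact (inv_le_one₀ (zero_lt_iff.2 (val_ne v d))).1 h3
  unfold ordv at h1
  rw [h4, WithZero.log_one] at h1
  exact absurd h1 (by decide)

lemma mem_sp (v : Pr F) (q : Quad F) : v ∈ sp q ↔ OddAt v q := by
  unfold sp
  rw [dif_pos (finite_odd q), Set.Finite.mem_toFinset]
  rfl

end OrdM

open OrdM in
theorem ord : OrdS := by
  intro F _ _
  refine ⟨oddAt_cls, mem_sp, ?_, ?_⟩
  · intro v q q'
    obtain ⟨d, rfl⟩ := exists_rep q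
    obtain ⟨e, rfl⟩ := exists_rep q'
    have h1 : cls d * cls e = cls (d * e) := rfl
    rw [mem_sp, mem_sp, mem_sp, h1, oddAt_cls, oddAt_cls, oddAt_cls, ordv_mul, Int.odd_add,
      ← Int.not_odd_iff_even]
    tauto
  · intro q
    obtain ⟨d, rfl⟩ := exists_rep q
    have h1 : cls d * cls d = cls (d * d) := rfl
    rw [h1]
    exact (QuotientGroup.eq_one_iff _).2 ⟨d, by simp [pow_two]⟩

end Pool.Agent.Lib.MP_50bb2e_nt.MT.H17
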