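import Pool.Agent.Lib.MP_50bb2e_nt.MT.H17.Cnt

/-! SIV: density of the ideals without prime factor in a finite set -/

open NumberField IsDedekindDomain Filter Topology

namespace Pool.Agent.Lib.MP_50bb2e_nt.MT.H17

open Pool.Agent.Lib.MP_50bb2e_nt.MT

namespace SivM

variable (F : Type) [Field F] [NumberField F]

/-- ideals of norm at most `X` without prime factor in `P` -/
def AP (P : Finset (Pr F)) (X : ℝ) : Set (Ideal (𝓞 F)) :=
  {I | I ∈ idealsLE F X ∧ ∀ v ∈ P, ¬ v.asIdeal ∣ I}

lemma AP_finite (P : Finset (Pr F)) (X : ℝ) : (AP F P X).Finite :=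
  (CntM.finite_le F X).subset fun _ h => h.1

variable {F}

lemma nm_pos (w : Pr F) : 0 < nm w := CntM.absNorm_pos F w.ne_bot

lemma prime_as (v : Pr F) : Prime v.asIdeal := Ideal.prime_of_isPrime v.ne_bot v.isPrime

lemma eq_of_dvd {v w : Pr F} (h : v.asIdeal ∣ w.asIdeal) : v = w := by
  have h1 : w.asIdeal ≤ v.asIdeal := Ideal.dvd_iff_le.1 h
  have h2 : w.asIdeal = v.asIdeal := w.isMaximal.eq_of_le v.isPrime.ne_top h1
  exact (HeightOneSpectrum.ext h2).symm

/-- the ideals of `AP` which are divisible by `w` -/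
lemma image_eq {P : Finset (Pr F)} {w : Pr F} (hw : w ∉ P) (X : ℝ) :
    {I | I ∈ AP F P X ∧ w.asIdeal ∣ I} =
      (fun J => w.asIdeal * J) '' AP F P (X / (nm w : ℝ)) := by
  have hn : (0 : ℝ) < nm w := by exact_mod_cast nm_pos w
  ext I
  constructor
  · rintro ⟨⟨⟨h0, hX⟩, hP⟩, J, rfl⟩
    refine ⟨J, ⟨⟨?_, ?_⟩, ?_⟩, rfl⟩
    · rintro rfl
      exact h0 (by simp)
    · rw [map_mul] at hX
      rw [le_div_iff₀ hn]
      push_cast at hX
      unfold nm
      linarith
    · intro v hv hd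
      exact hP v hv (Dvd.dvd.mul_left hd _)
  · rintro ⟨J, ⟨⟨h0, hX⟩, hP⟩, rfl⟩
    refine ⟨⟨⟨?_, ?_⟩, ?_⟩, Dvd.intro _ rfl⟩
    · intro h
      rcases mul_eq_zero.1 h with h1 | h1
      · exact w.ne_bot h1
      · exact h0 h1
    · rw [le_div_iff₀ hn] at hX
      simp only [map_mul]
      push_cast
      unfold nm at hX
      linarith
    · intro v hv hd
      rcases (prime_as v).dvd_or_dvd hd with h1 | h1
      · exact hw (eq_of_dvd h1 ▸ hv)
      · exact hP v hv h1

lemma mul_injective (w : Pr F) : Function.Injective (fun J : Ideal (𝓞 F) => w.asIdeal * J) := by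
  intro J J' h
  exact mul_left_cancel₀ (b := J) (c := J') (a := w.asIdeal) w.ne_bot h

lemma ncard_insert {P : Finset (Pr F)} {w : Pr F} (hw : w ∉ P) (X : ℝ) [DecidableEq (Pr F)] :
    ((AP F (insert w P) X).ncard : ℝ) =
      (AP F P X).ncard - (AP F P (X / (nm w : ℝ))).ncard := by
  have h1 : AP F (insert w P) X = AP F P X \ {I | I ∈ AP F P X ∧ w.asIdeal ∣ I} := by
    ext I
    constructor
    · rintro ⟨h, h'⟩
      refine ⟨⟨h, fun v hv => h' v (Finset.mem_insert_of_mem hv)⟩, ?_⟩
      rintro ⟨_, hd⟩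
      exact h' w (Finset.mem_insert_self _ _) hd
    · rintro ⟨h, h'⟩
      refine ⟨h.1, fun v hv hd => ?_⟩
      rcases Finset.mem_insert.1 hv with rfl | hv
      · exact h' ⟨h, hd⟩
      · exact h.2 v hv hd
  have hsub : {I | I ∈ AP F P X ∧ w.asIdeal ∣ I} ⊆ AP F P X := fun _ h => h.1
  have h2 := Set.ncard_sdiff_add_ncard_of_subset hsub (AP_finite F P X)
  have h3 : ({I | I ∈ AP F P X ∧ w.asIdeal ∣ I}).ncard =
      (AP F P (X / (nm w : ℝ))).ncard := by
    rw [image_eq hw, Set.ncard_image_of_injective _ (mul_injective w)]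
  rw [h1, ← h3]
  rw [eq_sub_iff_add_eq]
  exact_mod_cast h2

end SivM

open SivM in
theorem siv (_h : CntS) : SivS := by
  intro F _ _
  classical
  refine ⟨dedekindZeta_residue F, dedekindZeta_residue_pos F, fun P => ?_⟩
  change Tendsto (fun X : ℝ => ((AP F P X).ncard : ℝ) / X) atTop _
  induction P using Finset.induction_on with
  | empty =>
    simp only [Finset.prod_empty, mul_one]
    refine (CntM.tendsto_count F).congr fun X => ?_
    have h : AP F ∅ X = idealsLE F X := by
      ext I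
      simp [AP]
    rw [h]
  | insert w P hw ih =>
    have hn : (0 : ℝ) < nm w := by exact_mod_cast nm_pos w
    have h1 : Tendsto (fun X : ℝ => X / (nm w : ℝ)) atTop atTop :=
      tendsto_id.atTop_div_const hn
    have h2 := (ih.comp h1).div_const (nm w : ℝ)
    have h3 := ih.sub h2
    have h4 : dedekindZeta_residue F * ∏ v ∈ insert w P, (1 - 1 / (nm v : ℝ)) =
        dedekindZeta_residue F * ∏ v ∈ P, (1 - 1 / (nm v : ℝ)) -
          dedekindZeta_residue F * (∏ v ∈ P, (1 - 1 / (nm v : ℝ))) / (nm w : ℝ) := by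
      rw [Finset.prod_insert hw]
      ring
    rw [h4]
    refine h3.congr' ?_
    filter_upwards [eventually_gt_atTop 0] with X hX
    simp only [Function.comp_apply]
    rw [ncard_insert hw]
    field_simp

end Pool.Agent.Lib.MP_50bb2e_nt.MT.H17
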